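import Mathlib
import Pool.Agent.H42.Fan1

open Pool.Agent.H42.FanDefs

/-- A Hausdorff space `X` such that `𝒮(X)` is a `σ`-space but not an `ℵ`-space. -/
theorem Pool.Agent.Results.MP_81fb9f_gt.No.result :
    ∃ (X : Type) (_ : TopologicalSpace X), T2Space X ∧ SigmaSpace (SX X) ∧ ¬ AlephSpace (SX X) :=
  ⟨Pool.Agent.H42.Fan.X, inferInstance, inferInstance, Pool.Agent.H42.Fan.sigma,
    Pool.Agent.H42.Fan.not_aleph⟩
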